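import Pool.Agent.ZAR.Stmts

/-!
# ZAR squad: rows GUU, GDT, GIN
-/

namespace Pool.Agent.ZAR.H60

open MvPowerSeries

theorem guu : GUUStmt := by
  intro n K _
  have h1 := MvPolynomial.algebraicIndependent_X (Fin n × Fin (n + 1)) K
  have h2 : AlgebraicIndependent K
      ((IsScalarTower.toAlgHom K (MvPolynomial (Fin n × Fin (n + 1)) K)
        (FractionRing (MvPolynomial (Fin n × Fin (n + 1)) K))) ∘ MvPolynomial.X) := by
    refine h1.map' ?_
    exact IsFractionRing.injective _ _
  have h3 := h2.map' (f := IsScalarTower.toAlgHom K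
    (FractionRing (MvPolynomial (Fin n × Fin (n + 1)) K)) (KU n K)) (RingHom.injective _)
  exact h3

theorem gdt (hGPS : GPSStmt) : GDTStmt := by
  intro K L _ _ _ n q u hu N B hBN
  let M1 : Matrix (Fin n) (Fin (n + 1)) (MvPolynomial (Fin n × Fin (n + 1)) (MvPowerSeries (Fin q) K)) :=
    Matrix.of fun (i : Fin n) (j : Fin (n + 1)) => MvPolynomial.X (i, j)
  let M2 : Matrix (Fin (n + 1)) (Fin n) (MvPolynomial (Fin n × Fin (n + 1)) (MvPowerSeries (Fin q) K)) :=
    N.map MvPolynomial.C
  set Q : MvPolynomial (Fin n × Fin (n + 1)) (MvPowerSeries (Fin q) K) := (M1 * M2).det with hQ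
  have hev : ∀ {S : Type} [CommRing S] (f : MvPowerSeries (Fin q) K →+* S)
      (g : Fin n × Fin (n + 1) → S),
      MvPolynomial.eval₂ f g Q = ((Matrix.of fun i j => g (i, j)) * N.map f).det := by
    intro S _ f g
    have h1 : MvPolynomial.eval₂ f g Q = MvPolynomial.eval₂Hom f g Q := rfl
    rw [h1, hQ, RingHom.map_det, RingHom.mapMatrix_apply, Matrix.map_mul]
    congr 2
    · ext i j
      simp [M1]
    · ext i j
      simp [M2]
  have hQ0 : Q ≠ 0 := by
    intro h0
    apply hBN
    have h1 := hev (RingHom.id (MvPowerSeries (Fin q) K)) (fun p => B p.1 p.2)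
    rw [h0, MvPolynomial.eval₂_zero] at h1
    have h2 : (Matrix.of fun i j => B (i, j).1 (i, j).2) = B := by
      ext i j; rfl
    have h3 : N.map (RingHom.id (MvPowerSeries (Fin q) K)) = N := by
      ext i j; rfl
    rw [h2, h3] at h1
    exact h1.symm
  have h4 := hGPS K L n q u hu Q hQ0
  rw [hev] at h4
  exact h4

theorem gin : GINStmt := by
  intro K L _ _ _ n u hn hu a b hab
  classical
  -- a nonzero minor
  have hminor : ∃ j k : Fin (n + 1), a j * b k - a k * b j ≠ 0 := by
    by_contra hcon
    simp only [not_exists, not_not] at hcon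
    rw [LinearIndependent.pair_iff] at hab
    by_cases ha : ∃ j, a j ≠ 0
    · obtain ⟨j, hj⟩ := ha
      have h1 := hab (b j) (-(a j)) (by
        ext k
        have := hcon j k
        simp only [Pi.add_apply, Pi.smul_apply, smul_eq_mul, Pi.zero_apply]
        linear_combination -this)
      exact hj (neg_eq_zero.mp h1.2)
    · simp only [not_exists, not_not] at ha
      have h1 := hab 1 0 (by
        ext k
        simp [ha k])
      exact one_ne_zero h1.1
  obtain ⟨j, k, hjk⟩ := hminor
  have hjk' : j ≠ k := by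
    rintro rfl
    exact hjk (sub_self _)
  let r0 : Fin n := ⟨0, by omega⟩
  let r1 : Fin n := ⟨1, by omega⟩
  have hr : r0 ≠ r1 := by
    intro h; have := congrArg Fin.val h; simp [r0, r1] at this
  let la : Fin n → (Fin (n + 1) → K) → MvPolynomial (Fin n × Fin (n + 1)) K := fun r v =>
    ∑ l, MvPolynomial.X (r, l) * MvPolynomial.C (v l)
  let P : MvPolynomial (Fin n × Fin (n + 1)) K := la r0 a * la r1 b - la r1 a * la r0 b
  have hP0 : P ≠ 0 := by
    intro h0
    have h1 := congrArg (MvPolynomial.eval (fun p : Fin n × Fin (n + 1) =>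
      if p = (r0, j) then (1 : K) else if p = (r1, k) then 1 else 0)) h0
    have e0 : ∀ v : Fin (n + 1) → K, MvPolynomial.eval (fun p : Fin n × Fin (n + 1) =>
        if p = (r0, j) then (1 : K) else if p = (r1, k) then 1 else 0) (la r0 v) = v j := by
      intro v
      simp only [la, map_sum, map_mul, MvPolynomial.eval_X, MvPolynomial.eval_C]
      rw [Finset.sum_eq_single j]
      · simp
      · intro l _ hl
        rw [if_neg (by simpa using hl), if_neg (by simp [hr]), zero_mul]
      · intro h; exact absurd (Finset.mem_univ j) h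
    have e1 : ∀ v : Fin (n + 1) → K, MvPolynomial.eval (fun p : Fin n × Fin (n + 1) =>
        if p = (r0, j) then (1 : K) else if p = (r1, k) then 1 else 0) (la r1 v) = v k := by
      intro v
      simp only [la, map_sum, map_mul, MvPolynomial.eval_X, MvPolynomial.eval_C]
      rw [Finset.sum_eq_single k]
      · rw [if_neg (by simp [hr.symm]), if_pos rfl, one_mul]
      · intro l _ hl
        rw [if_neg (by simp [hr.symm]), if_neg (by simpa using hl), zero_mul]
      · intro h; exact absurd (Finset.mem_univ k) h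
    simp only [P, map_sub, map_mul, e0, e1, map_zero] at h1
    exact hjk h1
  have hPu : MvPolynomial.aeval (fun p : Fin n × Fin (n + 1) => u p.1 p.2) P ≠ 0 := by
    intro h0
    exact hP0 ((algebraicIndependent_iff.mp hu) P h0)
  have eu : ∀ (r : Fin n) (v : Fin (n + 1) → K),
      MvPolynomial.aeval (fun p : Fin n × Fin (n + 1) => u p.1 p.2) (la r v)
        = ∑ l, u r l * algebraMap K L (v l) := by
    intro r v
    simp only [la, map_sum, map_mul, MvPolynomial.aeval_X, MvPolynomial.algHom_C]
  simp only [P, map_sub, map_mul, eu] at hPu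
  rw [LinearIndependent.pair_iff]
  intro s t hst
  have h0 := congrFun hst r0
  have h1 := congrFun hst r1
  simp only [Pi.add_apply, Pi.smul_apply, smul_eq_mul, Pi.zero_apply] at h0 h1
  set x0 := ∑ l, u r0 l * algebraMap K L (a l)
  set y0 := ∑ l, u r0 l * algebraMap K L (b l)
  set x1 := ∑ l, u r1 l * algebraMap K L (a l)
  set y1 := ∑ l, u r1 l * algebraMap K L (b l)
  constructor
  · have h2 : s * (x0 * y1 - x1 * y0) = 0 := by linear_combination y1 * h0 - y0 * h1
    exact (mul_eq_zero.mp h2).resolve_right hPu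
  · have h2 : t * (x0 * y1 - x1 * y0) = 0 := by linear_combination x0 * h1 - x1 * h0
    exact (mul_eq_zero.mp h2).resolve_right hPu

end Pool.Agent.ZAR.H60
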