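import Pool.Agent.ZAR.Stmts

/-!
# ZAR squad: rows TGP, LV3, LV4, NEG
-/

namespace Pool.Agent.ZAR.H60

open MvPowerSeries

theorem cc_subst {n m : ℕ} {K : Type} [Field K] {a : Fin n → MvPowerSeries (Fin m) K}
    (ha : ∀ i, constantCoeff (a i) = 0) (f : MvPowerSeries (Fin n) K) :
    constantCoeff (subst a f) = constantCoeff f := by
  have hs : HasSubst a := hasSubst_of_constantCoeff_zero ha
  have h1 : constantCoeff (f - C (constantCoeff f)) = 0 := by
    rw [map_sub, constantCoeff_C, sub_self]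
  have h2 := constantCoeff_subst_eq_zero hs ha h1
  rw [subst_sub hs, map_sub, subst_C, constantCoeff_C] at h2
  exact sub_eq_zero.mp h2

theorem cc_bc {K L σ : Type} [Field K] [Field L] [Algebra K L] (f : MvPowerSeries σ K) :
    constantCoeff (bc K L σ f) = algebraMap K L (constantCoeff f) := by
  change constantCoeff (MvPowerSeries.map (algebraMap K L) f) = _
  rw [constantCoeff_map]

theorem pderiv_bc {K L σ : Type} [Field K] [Field L] [Algebra K L] (i : σ)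
    (f : MvPowerSeries σ K) : pderiv L i (bc K L σ f) = bc K L σ (pderiv K i f) := by
  ext d
  change coeff d (pderiv L i (MvPowerSeries.map (algebraMap K L) f))
    = coeff d (MvPowerSeries.map (algebraMap K L) (pderiv K i f))
  rw [coeff_pderiv, coeff_map, coeff_map, coeff_pderiv]
  simp

theorem tg_pf (hCHA : CHAStmt) {K L : Type} [Field K] [Field L] [Algebra K L] {n : ℕ}
    (u : Fin n → Fin (n + 1) → L) (x : Fin (n + 1) → MvPowerSeries (Fin (n + 1)) K)
    (a : Fin (n + 1) → MvPowerSeries (Fin 1) K) (ha : ∀ i, constantCoeff (a i) = 0) :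
    tg (pf u x a) = fun i => ∑ j, u i j * algebraMap K L ((jac0 x).mulVec (tg a) j) := by
  funext i
  unfold tg pf
  rw [map_sum, map_sum]
  refine Finset.sum_congr rfl fun j _ => ?_
  have h1 : pderiv L (0 : Fin 1) (C (u i j) * bc K L (Fin 1) (subst a (x j)))
      = C (u i j) * bc K L (Fin 1) (pderiv K 0 (subst a (x j))) := by
    rw [Derivation.leibniz, pderiv_C, smul_zero, add_zero, smul_eq_mul, pderiv_bc]
  rw [h1, map_mul, constantCoeff_C, cc_bc, hCHA K (n + 1) 1 a ha (x j) 0, map_sum]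
  congr 2
  simp only [Matrix.mulVec, dotProduct, jac0, Matrix.of_apply, map_mul, cc_subst ha]

theorem tgp (hCHA : CHAStmt) (hGIN : GINStmt) : TGPStmt := by
  intro K L _ _ _ n u x a b hn hu hx ha hb hab
  rw [tg_pf hCHA u x a ha, tg_pf hCHA u x b hb]
  refine hGIN K L n u hn hu _ _ ?_
  have hinj : LinearMap.ker (Matrix.mulVecLin (jac0 x)) = ⊥ := by
    rw [LinearMap.ker_eq_bot]
    exact Matrix.mulVec_injective_iff_isUnit.mpr
      ((Matrix.isUnit_iff_isUnit_det _).mpr (isUnit_iff_ne_zero.mpr hx.2))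
  have h1 := hab.map' (Matrix.mulVecLin (jac0 x)) hinj
  have h2 : (Matrix.mulVecLin (jac0 x)) ∘ ![tg a, tg b]
      = ![(jac0 x).mulVec (tg a), (jac0 x).mulVec (tg b)] := by
    funext i
    fin_cases i <;> rfl
  rw [h2] at h1
  exact h1

theorem SV.cc {n q : ℕ} {K : Type} [Field K] {I : Ideal (MvPowerSeries (Fin n) K)}
    {Y : Fin n → MvPowerSeries (Fin q) K} (h : SV I Y) (j : Fin n) : constantCoeff (Y j) = 0 := by
  obtain ⟨p, p', a, a', s, s', ha, -, hT, hY⟩ := h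
  rw [← hY j, cc_subst hT.1]
  exact ha.1 j

theorem lv3 (hBCO : BCOStmt) (hTPU : TPUStmt) (hTGP : TGPStmt) (hLV2 : LV2Stmt)
    (hGUU : GUUStmt) : LV3Stmt := by
  intro K _ I c m hc hm hcm P hE
  unfold Equi at hE
  rcases hE with ⟨-, h1⟩ | ⟨-, x, hx, h2⟩
  · exact (hBCO K 3 1 I c hc).1 h1
  · have hco : Coord x := (hBCO K 3 1 I c hc).2 x hx
    unfold Equi at h2
    have hu : Gen K (uu 2 K) := hGUU 2 K
    have v1 := hTPU K (KU 2 K) 2 1 (uu 2 K) x I c hco.1 hc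
    have v2 := hTPU K (KU 2 K) 2 1 (uu 2 K) x I m hco.1 hm
    have ht := hTGP K (KU 2 K) 2 (uu 2 K) x c m (le_refl 2) hu hco (SV.cc hc) (SV.cc hm) hcm
    exact hLV2 (KU 2 K) _ _ _ v1 v2 ht h2.2

theorem lv4 (hBCO : BCOStmt) (hTPU : TPUStmt) (hGPU : GPUStmt) (hPFS : PFSStmt)
    (hTGP : TGPStmt) (hLV3 : LV3Stmt) (hGUU : GUUStmt) : LV4Stmt := by
  intro K _ I A B R c c' m m' cc cm rc rm hA hB hR hc hc' hm hm' hcc hmm hdc hdm htg P hE
  unfold Equi at hE
  rcases hE with ⟨-, h1⟩ | ⟨-, x, hx, h2⟩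
  · exact (hBCO K 4 2 I A hA).1 h1
  · have hco : Coord x := (hBCO K 4 2 I A hA).2 x hx
    have hu : Gen K (uu 3 K) := hGUU 3 K
    have vA := hTPU K (KU 3 K) 3 2 (uu 3 K) x I A hco.1 hA
    have vB := hTPU K (KU 3 K) 3 2 (uu 3 K) x I B hco.1 hB
    have vR := hTPU K (KU 3 K) 3 2 (uu 3 K) x I R hco.1 hR
    have tc := hGPU K (KU 3 K) 3 2 2 1 (uu 3 K) x A B c c' cc rc hu hco (SV.cc hA) (SV.cc hB)
      hc hc' hcc hdc
    have tm := hGPU K (KU 3 K) 3 2 2 1 (uu 3 K) x A R m m' cm rm hu hco (SV.cc hA) (SV.cc hR)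
      hm hm' hmm hdm
    obtain ⟨-, pc⟩ := hPFS K (KU 3 K) 3 2 1 (uu 3 K) x A c hco.1 (SV.cc hA) hc
    obtain ⟨-, pm⟩ := hPFS K (KU 3 K) 3 2 1 (uu 3 K) x A m hco.1 (SV.cc hA) hm
    have s1 : SV (critI (uu 3 K) x I) (pf (uu 3 K) x (fun j => subst c (A j))) :=
      ⟨2, 2, _, _, _, _, vA, vB, tc, fun j => (pc j).symm⟩
    have s2 : SV (critI (uu 3 K) x I) (pf (uu 3 K) x (fun j => subst m (A j))) :=
      ⟨2, 2, _, _, _, _, vA, vR, tm, fun j => (pm j).symm⟩
    have ccc : ∀ i, constantCoeff (subst c (A i)) = 0 := fun i => by rw [cc_subst hc, SV.cc hA]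
    have ccm : ∀ i, constantCoeff (subst m (A i)) = 0 := fun i => by rw [cc_subst hm, SV.cc hA]
    have ht := hTGP K (KU 3 K) 3 (uu 3 K) x _ _ (by norm_num) hu hco ccc ccm htg
    exact hLV3 (KU 3 K) _ _ _ s1 s2 ht _ h2

end Pool.Agent.ZAR.H60
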