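import Pool.Agent.Helper60_ZAR.Lev
import Pool.Agent.Helper82_ZAR.WEI

/-!
# ZAR squad: rows TVL, NEG, PLX, BBV
-/

namespace Pool.Agent.ZAR.H60

open MvPowerSeries

theorem bc_X {K L σ : Type} [Field K] [Field L] [Algebra K L] (i : σ) :
    bc K L σ (X i) = X i := by
  change MvPowerSeries.map (algebraMap K L) (X i) = X i
  rw [map_X]

theorem tvl (hGPU : GPUStmt) : TVLStmt := by
  intro K L _ _ _ u φ hu hφ
  have hs : ∀ i, constantCoeff ((![0, X 0, X 1] : Fin 3 → MvPowerSeries (Fin 2) K) i) = 0 := by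
    intro i; fin_cases i <;> simp
  have hL : ∀ i, constantCoeff (fL K i) = 0 := by
    intro i; fin_cases i <;> simp [fL]
  have hR : ∀ i, constantCoeff (fR K i) = 0 := by
    intro i; fin_cases i <;> simp [fR]
  have hS : HasSubst (![0, X 0, X 1] : Fin 3 → MvPowerSeries (Fin 2) K) :=
    hasSubst_of_constantCoeff_zero hs
  have s0 : subst (![0, X 0, X 1] : Fin 3 → MvPowerSeries (Fin 2) K)
      (0 : MvPowerSeries (Fin 3) K) = 0 := by
    rw [← coe_substAlgHom hS, map_zero]
  have s1 : subst (![0, X 0, X 1] : Fin 3 → MvPowerSeries (Fin 2) K)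
      (1 : MvPowerSeries (Fin 3) K) = 1 := by
    rw [← coe_substAlgHom hS, map_one]
  have heq : ∀ j, subst (![0, X 0, X 1] : Fin 3 → MvPowerSeries (Fin 2) K) (fL K j)
      = subst (![0, X 0, X 1] : Fin 3 → MvPowerSeries (Fin 2) K) (fR K j) := by
    intro j
    fin_cases j
    · simp [fL, fR]
    · simp [fL, fR, subst_X hS, s0]
    · simp [fL, fR, subst_X hS, s0]
    · simp [fL, fR]
    · simp [fL, fR]
  have hdet : ((tanM (fL K) (fR K) (![0, X 0, X 1] : Fin 3 → MvPowerSeries (Fin 2) K)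
      ![0, X 0, X 1] (![Sum.inl 0, Sum.inl 1, Sum.inl 2, Sum.inr 0] : Fin 4 → Fin 3 ⊕ Fin 3)).submatrix
      (![2, 3, 4, 1] : Fin 4 → Fin 5) id).det ≠ 0 := by
    have h1 : ((tanM (fL K) (fR K) (![0, X 0, X 1] : Fin 3 → MvPowerSeries (Fin 2) K)
      ![0, X 0, X 1] (![Sum.inl 0, Sum.inl 1, Sum.inl 2, Sum.inr 0] : Fin 4 → Fin 3 ⊕ Fin 3)).submatrix
      (![2, 3, 4, 1] : Fin 4 → Fin 5) id) = 1 := by
      ext1 i j
      fin_cases i <;> fin_cases j <;>
        simp [tanM, fL, fR, pderiv_X, s0, s1]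
    rw [h1, Matrix.det_one]
    exact one_ne_zero
  have h2 := hGPU K L 4 3 3 2 u φ (fL K) (fR K) _ _ _ _ hu hφ hL hR hs hs heq hdet
  have h3 : (fun i => bc K L (Fin 2) ((![0, X 0, X 1] : Fin 3 → MvPowerSeries (Fin 2) K) i))
      = (![0, X 0, X 1] : Fin 3 → MvPowerSeries (Fin 2) L) := by
    funext i
    fin_cases i
    · change bc K L (Fin 2) 0 = 0
      rw [map_zero]
    · exact bc_X 0
    · exact bc_X 1
  rw [h3] at h2
  exact h2

theorem neg (hSV6 : SV6Stmt) (hTPU : TPUStmt) (hH5A : H5AStmt) (hH5B : H5BStmt) (hH5C : H5CStmt)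
    (hH5L : H5LStmt) (hH5R : H5RStmt) (hLV5 : LV5Stmt) (hGUU : GUUStmt) (hGVK : GVKStmt) :
    NEGStmt := by
  intro K _ _ P
  have : CharZero (KU 5 K) := charZero_of_injective_algebraMap (algebraMap K (KU 5 K)).injective
  have hu : Gen K (uu 5 K) := hGUU 5 K
  have hb : ∀ i, constantCoeff (bV K i) = 0 := by
    intro i; fin_cases i <;> simp [bV]
  have hkv : ∀ j, kv (uu 5 K) j ≠ 0 := by
    intro j
    have h1 := (hGVK K (KU 5 K) 5 (uu 5 K) hu).2 1 (MvPolynomial.X j)
      (MvPolynomial.isHomogeneous_X K j) (MvPolynomial.X_ne_zero j)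
    rwa [MvPolynomial.aeval_X] at h1
  have hG : (Matrix.of fun (i : Fin 5) (m : Fin 5) => uu 5 K i ((1 : Fin 6).succAbove m)).det ≠ 0 := by
    intro h0
    apply hkv 1
    unfold kv
    rw [h0, mul_zero]
  have van : ∀ k, Van (critI (uu 5 K) (bV K) (Ideal.span {fV K})) (pf (uu 5 K) (bV K) (gP K k)) :=
    fun k => hTPU K (KU 5 K) 5 4 (uu 5 K) (bV K) _ _ hb (hSV6 K k)
  refine hLV5 (KU 5 K) (kv (uu 5 K))
    (Matrix.of fun (i : Fin 5) (m : Fin 5) => uu 5 K i ((1 : Fin 6).succAbove m)) _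
    (hkv 1) (hkv 2) (hkv 3) hG ?_ ?_ ?_ ?_ ?_ P
  · obtain ⟨s, s', hT, hs⟩ := hH5A K (KU 5 K) (uu 5 K) hu
    exact ⟨4, 4, _, _, s, s', van 0, van 3, hT, hs⟩
  · obtain ⟨s, s', hT, hs⟩ := hH5B K (KU 5 K) (uu 5 K) hu
    exact ⟨4, 4, _, _, s, s', van 1, van 4, hT, hs⟩
  · obtain ⟨s, s', hT, hs⟩ := hH5C K (KU 5 K) (uu 5 K) hu
    exact ⟨4, 4, _, _, s, s', van 2, van 5, hT, hs⟩
  · obtain ⟨s, s', hT, hs⟩ := hH5L K (KU 5 K) (uu 5 K) hu
    exact ⟨4, 4, _, _, s, s', van 0, van 6, hT, hs⟩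
  · obtain ⟨s, s', hT, hs⟩ := hH5R K (KU 5 K) (uu 5 K) hu
    exact ⟨4, 4, _, _, s, s', van 0, van 7, hT, hs⟩

theorem plx (hKER : KERStmt) : PLXStmt := by
  intro K _
  have h1 : PL (Pi.single 5 1 : Fin 6 → K) = Ideal.span {X 0, X 1, X 2, X 3, X 4} := by
    apply le_antisymm
    · unfold PL
      rw [Ideal.span_le]
      rintro f ⟨i, j, rfl⟩
      have hX : ∀ j : Fin 6, j ≠ 5 → (X j : MvPowerSeries (Fin 6) K) ∈
          Ideal.span {X 0, X 1, X 2, X 3, X 4} := by
        intro j hj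
        apply Ideal.subset_span
        fin_cases j
        · simp
        · simp
        · simp
        · simp
        · simp
        · exact absurd rfl hj
      by_cases hi : i = 5
      · by_cases hj : j = 5
        · rw [hi, hj, sub_self]; exact Ideal.zero_mem _
        · rw [hi, Pi.single_eq_same, Pi.single_eq_of_ne hj, map_one, map_zero, one_mul, zero_mul,
            sub_zero]
          exact hX j hj
      · by_cases hj : j = 5
        · rw [hj, Pi.single_eq_same, Pi.single_eq_of_ne hi, map_one, map_zero, one_mul, zero_mul,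
            zero_sub]
          exact Ideal.neg_mem_iff _ |>.mpr (hX i hi)
        · rw [Pi.single_eq_of_ne hi, Pi.single_eq_of_ne hj, map_zero, zero_mul, zero_mul, sub_self]
          exact Ideal.zero_mem _
    · rw [Ideal.span_le]
      have hX : ∀ j : Fin 6, j ≠ 5 → (X j : MvPowerSeries (Fin 6) K) ∈
          PL (Pi.single 5 1 : Fin 6 → K) := by
        intro j hj
        apply Ideal.subset_span
        refine ⟨5, j, ?_⟩
        rw [Pi.single_eq_same, Pi.single_eq_of_ne hj, map_one, map_zero, one_mul, zero_mul,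
            sub_zero]
      intro f hf
      simp only [Set.mem_insert_iff, Set.mem_singleton_iff] at hf
      rcases hf with rfl | rfl | rfl | rfl | rfl
      · exact hX 0 (by decide)
      · exact hX 1 (by decide)
      · exact hX 2 (by decide)
      · exact hX 3 (by decide)
      · exact hX 4 (by decide)
  refine ⟨h1, ?_⟩
  rw [← h1]
  have he : (Pi.single 5 1 : Fin 6 → K) ≠ 0 := by
    intro h0
    have := congrFun h0 5
    rw [Pi.single_eq_same] at this
    exact one_ne_zero this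
  have hs : HasSubst (fun i => (C ((Pi.single 5 1 : Fin 6 → K) i) * X 0 : MvPowerSeries (Fin 1) K)) :=
    hasSubst_of_constantCoeff_zero fun i => by simp
  have h2 : PL (Pi.single 5 1 : Fin 6 → K) = RingHom.ker (substAlgHom (R := K) hs) := by
    ext f
    rw [hKER K 6 _ he f, RingHom.mem_ker, coe_substAlgHom]
    rfl
  rw [h2]
  have hdom : IsDomain (MvPowerSeries (Fin 1) K) := NoZeroDivisors.to_isDomain _
  exact RingHom.ker_isPrime _

theorem mI_le_span {n : ℕ} {K : Type} [Field K] :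
    mI n K ≤ Ideal.span (Set.range (X : Fin n → MvPowerSeries (Fin n) K)) := fun f hf =>
  H82.mem_span_X f hf

theorem bbv : BBVStmt := by
  intro K _
  unfold IsBasis
  apply le_antisymm
  · rw [sup_le_iff, Ideal.span_le, Ideal.span_le]
    constructor
    · rintro _ ⟨i, rfl⟩
      change constantCoeff (bV K i) = 0
      fin_cases i <;> simp [bV]
    · intro f hf
      rw [Set.mem_singleton_iff] at hf
      subst hf
      change constantCoeff (fV K) = 0
      simp [fV]
  · refine mI_le_span.trans (le_trans ?_ le_sup_left)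
    rw [Ideal.span_le]
    rintro _ ⟨i, rfl⟩
    have hb : ∀ i, bV K i ∈ Ideal.span (Set.range (bV K)) := fun i => Ideal.subset_span ⟨i, rfl⟩
    fin_cases i
    · exact hb 0
    · exact hb 1
    · have h1 : (X 2 : MvPowerSeries (Fin 6) K) = bV K 2 - X 5 * X 1 * bV K 1 := by
        simp [bV]; ring
      change (X 2 : MvPowerSeries (Fin 6) K) ∈ _
      rw [h1]
      exact Ideal.sub_mem _ (hb 2) (Ideal.mul_mem_left _ _ (hb 1))
    · exact hb 3
    · exact hb 4
    · exact hb 5

end Pool.Agent.ZAR.H60
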